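import Pool.Agent.W978.QM.Stm

/-!
# Project QM (helper978), part LAT
-/

set_option autoImplicit false

namespace Pool.Agent.W240.QM

open Pool.Agent.W978.QM

/-- the matrix entries after inserting `p` -/
def WW (b : Fin 2 → Fin 2 → Fin 2 → Fin 2 → ℤ) (p : Fin 2 → ℤ) (j k l : Fin 2) : ℤ :=
  b 0 j k l * p 0 + b 1 j k l * p 1

theorem mm_eq (b : Fin 2 → Fin 2 → Fin 2 → Fin 2 → ℤ) (p q : Fin 2 → ℤ) (k l : Fin 2) :
    mm b p q k l = q 0 * WW b p 0 k l + q 1 * WW b p 1 k l := by
  unfold mm WW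
  simp only [Fin.sum_univ_two]
  ring

theorem prim_prop {v w : Fin 2 → ℤ} (hv : Prim v) (hw : Prim w) (hd : v 0 * w 1 - v 1 * w 0 = 0) :
    w = v ∨ w = -v := by
  obtain ⟨a, b, hab⟩ := hv
  obtain ⟨a', b', hab'⟩ := hw
  set s := a * w 0 + b * w 1 with hs
  have h0 : w 0 = s * v 0 := by
    rw [hs]; linear_combination (-(w 0)) * hab - b * hd
  have h1 : w 1 = s * v 1 := by
    rw [hs]; linear_combination (-(w 1)) * hab + a * hd
  have h2 : s * (a' * v 0 + b' * v 1) = 1 := by
    linear_combination hab' - a' * h0 - b' * h1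
  rcases Int.eq_one_or_neg_one_of_mul_eq_one h2 with h3 | h3
  · left
    ext i
    fin_cases i
    · simpa [h3] using h0
    · simpa [h3] using h1
  · right
    ext i
    fin_cases i
    · simpa [h3] using h0
    · simpa [h3] using h1

theorem lat (hPAR : S_PAR) : S_LAT := by
  classical
  intro b j k l j' k' l' hκ
  set κ : ℤ := b 0 j k l * b 1 j' k' l' - b 0 j' k' l' * b 1 j k l with hκdef
  set A : ℤ := 1 + |b 1 j' k' l'| + |b 1 j k l| + |b 0 j k l| + |b 0 j' k' l'| with hA
  have hA1 : (1 : ℤ) ≤ A := by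
    have h1 := abs_nonneg (b 1 j' k' l')
    have h2 := abs_nonneg (b 1 j k l)
    have h3 := abs_nonneg (b 0 j k l)
    have h4 := abs_nonneg (b 0 j' k' l')
    rw [hA]; linarith
  have hκ1 : (1 : ℤ) ≤ |κ| := Int.one_le_abs hκ
  have hAR : (1 : ℝ) ≤ (A : ℝ) := by exact_mod_cast hA1
  have hκR : (1 : ℝ) ≤ ((|κ| : ℤ) : ℝ) := by exact_mod_cast hκ1
  refine ⟨8 * A * ((|κ| : ℤ) : ℝ), by positivity, ?_⟩
  intro p hp X m Y hX hm hY
  -- the two linear forms
  have e0 : κ * p 0 = b 1 j' k' l' * WW b p j k l - b 1 j k l * WW b p j' k' l' := by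
    unfold WW; rw [hκdef]; ring
  have e1 : κ * p 1 = b 0 j k l * WW b p j' k' l' - b 0 j' k' l' * WW b p j k l := by
    unfold WW; rw [hκdef]; ring
  -- the larger one
  obtain ⟨j0, k0, l0, hc1, hc2⟩ : ∃ j0 k0 l0 : Fin 2, |WW b p j k l| ≤ |WW b p j0 k0 l0| ∧
      |WW b p j' k' l'| ≤ |WW b p j0 k0 l0| := by
    rcases le_total (|WW b p j k l|) (|WW b p j' k' l'|) with h | h
    · exact ⟨j', k', l', h, le_rfl⟩
    · exact ⟨j, k, l, le_rfl, h⟩
  set c : ℤ := |WW b p j0 k0 l0| with hc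
  have hc0 : 0 ≤ c := abs_nonneg _
  have hp0 : |p 0| ≤ A * c := by
    have h1 : |κ| * |p 0| ≤ A * c := by
      rw [← abs_mul, e0]
      calc |b 1 j' k' l' * WW b p j k l - b 1 j k l * WW b p j' k' l'|
          ≤ |b 1 j' k' l' * WW b p j k l| + |b 1 j k l * WW b p j' k' l'| := abs_sub _ _
        _ = |b 1 j' k' l'| * |WW b p j k l| + |b 1 j k l| * |WW b p j' k' l'| := by
            rw [abs_mul, abs_mul]
        _ ≤ |b 1 j' k' l'| * c + |b 1 j k l| * c := by
            have h2 := mul_le_mul_of_nonneg_left hc1 (abs_nonneg (b 1 j' k' l'))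
            have h3 := mul_le_mul_of_nonneg_left hc2 (abs_nonneg (b 1 j k l))
            linarith
        _ ≤ A * c := by
            rw [← add_mul]
            refine mul_le_mul_of_nonneg_right ?_ hc0
            have h3 := abs_nonneg (b 0 j k l)
            have h4 := abs_nonneg (b 0 j' k' l')
            rw [hA]; linarith
    have h2 := abs_nonneg (p 0)
    nlinarith
  have hp1 : |p 1| ≤ A * c := by
    have h1 : |κ| * |p 1| ≤ A * c := by
      rw [← abs_mul, e1]
      calc |b 0 j k l * WW b p j' k' l' - b 0 j' k' l' * WW b p j k l|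
          ≤ |b 0 j k l * WW b p j' k' l'| + |b 0 j' k' l' * WW b p j k l| := abs_sub _ _
        _ = |b 0 j k l| * |WW b p j' k' l'| + |b 0 j' k' l'| * |WW b p j k l| := by
            rw [abs_mul, abs_mul]
        _ ≤ |b 0 j k l| * c + |b 0 j' k' l'| * c := by
            have h2 := mul_le_mul_of_nonneg_left hc2 (abs_nonneg (b 0 j k l))
            have h3 := mul_le_mul_of_nonneg_left hc1 (abs_nonneg (b 0 j' k' l'))
            linarith
        _ ≤ A * c := by
            rw [← add_mul]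
            refine mul_le_mul_of_nonneg_right ?_ hc0
            have h3 := abs_nonneg (b 1 j k l)
            have h4 := abs_nonneg (b 1 j' k' l')
            rw [hA]; linarith
    have h2 := abs_nonneg (p 1)
    nlinarith
  have hnm : nm p ≤ A * c := max_le hp0 hp1
  have hnm1 : 1 ≤ nm p := by
    by_contra hcon
    push Not at hcon
    have h1 : |p 0| ≤ nm p := le_max_left _ _
    have h2 : |p 1| ≤ nm p := le_max_right _ _
    have h3 : p 0 = 0 := by
      have := abs_nonneg (p 0); rw [← abs_eq_zero]; omega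
    have h4 : p 1 = 0 := by
      have := abs_nonneg (p 1); rw [← abs_eq_zero]; omega
    obtain ⟨u, v, huv⟩ := hp
    rw [h3, h4] at huv
    simp at huv
  have hcpos : 1 ≤ c := by
    by_contra hcon
    have : c = 0 := by omega
    rw [this, mul_zero] at hnm
    omega
  have hcR : (1 : ℝ) ≤ (c : ℝ) := by exact_mod_cast hcpos
  have hmR : (1 : ℝ) ≤ (m : ℝ) := by exact_mod_cast hm
  have hXR : (1 : ℝ) ≤ (X : ℝ) := by exact_mod_cast hX
  have hYR : (1 : ℝ) ≤ (Y : ℝ) := by exact_mod_cast hY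
  have hnR : (1 : ℝ) ≤ (nm p : ℝ) := by exact_mod_cast hnm1
  have hnAc : (nm p : ℝ) ≤ A * c := by exact_mod_cast hnm
  -- the other coordinate
  set L1 : Fin 2 → ℝ := fun i => if i = j0 then 0 else 1 with hL1
  set L2 : Fin 2 → ℝ := fun i => (WW b p i k0 l0 : ℝ) with hL2
  have hlam : |L1 0 * L2 1 - L1 1 * L2 0| = (c : ℝ) := by
    rw [hL1, hL2, hc]
    fin_cases j0
    · simp
    · simp
  have hmem : ∀ v ∈ ((bx X).filter fun q => Prim q ∧ (∀ k l, (m : ℤ) ∣ mm b p q k l) ∧
      mn (mm b p q) ≤ Y), v ∈ bx X ∧ Prim v ∧ (∀ k l, (m : ℤ) ∣ mm b p v k l) ∧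
      mn (mm b p v) ≤ Y := by
    intro v hv
    rw [Finset.mem_filter] at hv
    exact hv
  have hmain := hPAR ((bx X).filter fun q => Prim q ∧ (∀ k l, (m : ℤ) ∣ mm b p q k l) ∧
      mn (mm b p q) ≤ Y) L1 L2 X Y (m / ((|κ| : ℤ) : ℝ)) c (by linarith) (by linarith)
      (by positivity) (by linarith) hlam ?_ ?_
  · refine (le_of_eq ?_).trans (hmain.trans ?_)
    · congr 1
    have h1 : 8 * (X : ℝ) * Y / (c * (m / ((|κ| : ℤ) : ℝ))) =
        8 * X * Y * ((|κ| : ℤ) : ℝ) / (c * m) := by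
      field_simp
    have h2 : 8 * (X : ℝ) * Y * ((|κ| : ℤ) : ℝ) / (c * m) ≤
        8 * A * ((|κ| : ℤ) : ℝ) * X * Y / (m * (nm p : ℝ)) := by
      rw [div_le_div_iff₀ (by positivity) (by positivity)]
      have h3 : 8 * (X : ℝ) * Y * ((|κ| : ℤ) : ℝ) * (m * (nm p : ℝ)) ≤
          8 * (X : ℝ) * Y * ((|κ| : ℤ) : ℝ) * (m * (A * c)) := by
        apply mul_le_mul_of_nonneg_left _ (by positivity)
        exact mul_le_mul_of_nonneg_left hnAc (by positivity)
      calc 8 * (X : ℝ) * Y * ((|κ| : ℤ) : ℝ) * (m * (nm p : ℝ))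
          ≤ 8 * (X : ℝ) * Y * ((|κ| : ℤ) : ℝ) * (m * (A * c)) := h3
        _ = 8 * A * ((|κ| : ℤ) : ℝ) * X * Y * (c * m) := by ring
    rw [h1]
    linarith
  · intro v hv
    obtain ⟨hb, hprim, -, hn⟩ := hmem v hv
    have hbx : ∀ i, |v i| ≤ (X : ℤ) := by
      intro i
      have := (Fintype.mem_piFinset.1 hb) i
      rw [Finset.mem_Icc] at this
      exact abs_le.2 this
    refine ⟨?_, ?_, ?_⟩
    · rintro rfl
      obtain ⟨u, w, huw⟩ := hprim
      simp at huw
    · have h5 : ∃ i, L1 0 * v 0 + L1 1 * v 1 = (v i : ℝ) := by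
        rw [hL1]
        fin_cases j0
        · exact ⟨1, by simp⟩
        · exact ⟨0, by simp⟩
      obtain ⟨i, hi⟩ := h5
      rw [hi]
      exact_mod_cast hbx i
    · have h6 : L2 0 * v 0 + L2 1 * v 1 = ((mm b p v k0 l0 : ℤ) : ℝ) := by
        rw [mm_eq, hL2]
        push_cast
        ring
      rw [h6]
      have h7 : |mm b p v k0 l0| ≤ mn (mm b p v) := by
        unfold mn
        fin_cases k0 <;> fin_cases l0
        · exact le_max_of_le_left (le_max_left _ _)
        · exact le_max_of_le_left (le_max_right _ _)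
        · exact le_max_of_le_right (le_max_left _ _)
        · exact le_max_of_le_right (le_max_right _ _)
      exact_mod_cast h7.trans hn
  · intro v hv w hw hne hne'
    obtain ⟨-, hpv, hdv, -⟩ := hmem v hv
    obtain ⟨-, hpw, hdw, -⟩ := hmem w hw
    set d : ℤ := v 0 * w 1 - v 1 * w 0 with hd
    have hd0 : d ≠ 0 := by
      intro h
      rcases prim_prop hpv hpw h with h1 | h1
      · exact hne h1
      · exact hne' h1
    have hdW : ∀ j k l, (m : ℤ) ∣ d * WW b p j k l := by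
      intro i k l
      fin_cases i
      · have h8 : d * WW b p 0 k l = w 1 * mm b p v k l - v 1 * mm b p w k l := by
          rw [mm_eq, mm_eq, hd]; ring
        show (m : ℤ) ∣ d * WW b p 0 k l
        rw [h8]
        exact dvd_sub (Dvd.dvd.mul_left (hdv k l) _) (Dvd.dvd.mul_left (hdw k l) _)
      · have h8 : d * WW b p 1 k l = v 0 * mm b p w k l - w 0 * mm b p v k l := by
          rw [mm_eq, mm_eq, hd]; ring
        show (m : ℤ) ∣ d * WW b p 1 k l
        rw [h8]
        exact dvd_sub (Dvd.dvd.mul_left (hdw k l) _) (Dvd.dvd.mul_left (hdv k l) _)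
    have h0 : (m : ℤ) ∣ d * κ * p 0 := by
      have h9 : d * κ * p 0 = b 1 j' k' l' * (d * WW b p j k l) -
          b 1 j k l * (d * WW b p j' k' l') := by
        linear_combination d * e0
      rw [h9]
      exact dvd_sub (Dvd.dvd.mul_left (hdW _ _ _) _) (Dvd.dvd.mul_left (hdW _ _ _) _)
    have h1 : (m : ℤ) ∣ d * κ * p 1 := by
      have h9 : d * κ * p 1 = b 0 j k l * (d * WW b p j' k' l') -
          b 0 j' k' l' * (d * WW b p j k l) := by
        linear_combination d * e1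
      rw [h9]
      exact dvd_sub (Dvd.dvd.mul_left (hdW _ _ _) _) (Dvd.dvd.mul_left (hdW _ _ _) _)
    have h2 : (m : ℤ) ∣ d * κ := by
      obtain ⟨u, x, hux⟩ := hp
      have h10 : d * κ = u * (d * κ * p 0) + x * (d * κ * p 1) := by
        linear_combination (-(d * κ)) * hux
      rw [h10]
      exact dvd_add (Dvd.dvd.mul_left h0 _) (Dvd.dvd.mul_left h1 _)
    have h3 : (m : ℤ) ≤ |d| * |κ| := by
      rw [← abs_mul]
      exact Int.le_of_dvd (abs_pos.2 (mul_ne_zero hd0 hκ)) ((dvd_abs _ _).2 h2)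
    rw [div_le_iff₀ (by linarith)]
    have h4 : ((m : ℤ) : ℝ) ≤ ((|d| * |κ| : ℤ) : ℝ) := by exact_mod_cast h3
    rw [hd] at h4
    push_cast at h4 ⊢
    exact h4

end Pool.Agent.W240.QM
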